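import Pool.Agent.Y69.DV.Prod

/-!
# Products of polynomials composed from polynomials in disjoint variables are not power-central

`K` is an infinite field of any characteristic and `n ≥ 3` is any integer.  The variables are
divided into two sets, `J` and its complement; `g` stands for polynomials in the variables of `J`
and `h` for polynomials in the other variables.  We show that, for example, `g h`, `[g, h]`,
`g h + h g`, `α g h + β h' g' + g'' + h''` with `α ≠ 0` and products of such expressions, such as
`[g₁, h₁] [g₂, h₂] ⋯ [g_m, h_m]`, have no power which takes only scalar values on `M_n(K)` if the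
polynomials `g`, `h`, `g_i`, `h_i` are not scalar valued.  For `n = 2` the polynomial `[x, y]` is
`2`-central.
-/

set_option autoImplicit false

namespace Pool.Agent.Results.MP_5d2531_al.DisjointVariables

/-- `f` takes only scalar values on `M_n(K)`. -/
def ScalarValued {K : Type*} [Field K] {σ : Type*} (n : ℕ) (f : FreeAlgebra K σ) : Prop :=
  ∀ X : σ → Matrix (Fin n) (Fin n) K, ∃ c : K, FreeAlgebra.lift K X f = Matrix.scalar (Fin n) c

/-- The subspace of the polynomials in the variables `x_i`, `i ∈ J`. -/
def In (K : Type*) [Field K] {σ : Type*} (J : Set σ) : Submodule K (FreeAlgebra K σ) :=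
  Subalgebra.toSubmodule (Algebra.adjoin K (FreeAlgebra.ι K '' J))

/-- With `A` the polynomials in the variables of `J` and `B` those in the other variables:
`f = ∑ g_j h_j + y`, where the `g_j ∈ A` are linearly independent modulo the scalar valued
polynomials, the `h_j ∈ B` are not all scalar valued and `y ∈ B A + A` (which contains `A` and `B`).
For example `f = g h + y`, where `g ∈ A` and `h ∈ B` are not scalar valued. -/
def Leading {K : Type*} [Field K] {σ : Type*} (n : ℕ) (J : Set σ) (f : FreeAlgebra K σ) : Prop :=
  ∃ (m : ℕ) (g h : Fin m → FreeAlgebra K σ) (y : FreeAlgebra K σ),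
    (∀ j, g j ∈ In K J) ∧ (∀ j, h j ∈ In K Jᶜ) ∧
    (∀ c : Fin m → K, ScalarValued n (∑ j, c j • g j) → c = 0) ∧ (∃ j, ¬ ScalarValued n (h j)) ∧
    y ∈ In K Jᶜ * In K J ⊔ In K J ∧ f = ∑ j, g j * h j + y

/-- Let `K` be an infinite field, `n ≥ 3`, `J` a set of variables, `A` the polynomials in the
variables of `J` and `B` the polynomials in the other variables.  Let `f = f₀ f₁ ⋯ f_k + y`, where
the `f_i` are leading polynomials and `y ∈ (B A) ^ (k + 1) + A (B A) ^ k`.  Then no power `f ^ ν`,
`ν ≥ 1`, takes only scalar values on `M_n(K)`; hence `f` is not `n`-central.  (The roles of `A` and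
`B` can be exchanged.) -/
theorem result (K : Type*) [Field K] [Infinite K] (σ : Type*) (n : ℕ) (hn : 3 ≤ n)
    (J : Set σ) (k : ℕ) (L : List (FreeAlgebra K σ)) (hL : L.length = k + 1)
    (hlead : ∀ f ∈ L, Leading n J f) (y : FreeAlgebra K σ)
    (hy : y ∈ (In K Jᶜ * In K J) ^ (k + 1) ⊔ In K J * (In K Jᶜ * In K J) ^ k)
    (ν : ℕ) (hν : 1 ≤ ν) : ¬ ScalarValued n ((L.prod + y) ^ ν) :=
  Pool.Agent.Y69.DV.lead_products hn J k L hL hlead y hy ν (by omega)

end Pool.Agent.Results.MP_5d2531_al.DisjointVariables
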