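import Pool.Agent.Y69.DV.Few

/-!
# Sums of less than `n` products of polynomials in disjoint variables are not power-central

`K` is an infinite field of any characteristic.  The variables are divided into two sets, `J` and
its complement.  For example, the polynomials `g h w` and more generally
`g₀ h₀ g₁ h₁ ⋯ g_k h_k w` with `g_i`, `w` in the variables of `J` and `h_i` in the other variables
are not `n`-central if `h₀`, `g_i`, `h_i` (`1 ≤ i ≤ k`) and `w g₀` are not scalar valued.  (If `w g₀`
is scalar valued then `g₀ h₀ w` can be a multiple of a conjugate of `h₀`.)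
-/

set_option autoImplicit false

namespace Pool.Agent.Results.MP_5d2531_al.FewProducts

/-- `f` takes only scalar values on `M_n(K)`. -/
def ScalarValued {K : Type*} [Field K] {σ : Type*} (n : ℕ) (f : FreeAlgebra K σ) : Prop :=
  ∀ X : σ → Matrix (Fin n) (Fin n) K, ∃ c : K, FreeAlgebra.lift K X f = Matrix.scalar (Fin n) c

/-- The subspace of the polynomials in the variables `x_i`, `i ∈ J`. -/
def In (K : Type*) [Field K] {σ : Type*} (J : Set σ) : Submodule K (FreeAlgebra K σ) :=
  Subalgebra.toSubmodule (Algebra.adjoin K (FreeAlgebra.ι K '' J))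

/-- With `A` the polynomials in the variables of `J` and `B` those in the other variables:
`f = ∑ g_j h_j + y`, where the `g_j ∈ A` are linearly independent modulo the scalar valued
polynomials, the `h_j ∈ B` are not all scalar valued and `y ∈ B A + A` (which contains `A` and `B`).
For example `f = g h + y`, where `g ∈ A` and `h ∈ B` are not scalar valued. -/
def Leading {K : Type*} [Field K] {σ : Type*} (n : ℕ) (J : Set σ) (f : FreeAlgebra K σ) : Prop :=
  ∃ (m : ℕ) (g h : Fin m → FreeAlgebra K σ) (y : FreeAlgebra K σ),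
    (∀ j, g j ∈ In K J) ∧ (∀ j, h j ∈ In K Jᶜ) ∧
    (∀ c : Fin m → K, ScalarValued n (∑ j, c j • g j) → c = 0) ∧ (∃ j, ¬ ScalarValued n (h j)) ∧
    y ∈ In K Jᶜ * In K J ⊔ In K J ∧ f = ∑ j, g j * h j + y

/-- Let `K` be an infinite field, `J` a set of variables, `A` the polynomials in the variables of
`J` and `B` the polynomials in the other variables.  Let
`f = ∑_{j < m} g_j h_j (f₁ f₂ ⋯ f_k) w_j + y`, where `m < n`, `g_j, w_j ∈ A`, the `h_j ∈ B` are
linearly independent modulo the scalar valued polynomials, `w_j g_j` is not scalar valued for some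
`j`, the `f_i` are leading polynomials (`k ≥ 0`) and `y ∈ A (B A) ^ k`.  Then no power `f ^ ν`,
`ν ≥ 1`, takes only scalar values on `M_n(K)`; hence `f` is not `n`-central. -/
theorem result (K : Type*) [Field K] [Infinite K] (σ : Type*) (n : ℕ) (J : Set σ) (m k : ℕ)
    (hm : m < n) (g h w : Fin m → FreeAlgebra K σ) (L : List (FreeAlgebra K σ))
    (hL : L.length = k) (hlead : ∀ f ∈ L, Leading n J f)
    (hg : ∀ j, g j ∈ In K J) (hh : ∀ j, h j ∈ In K Jᶜ) (hw : ∀ j, w j ∈ In K J)
    (hli : ∀ c : Fin m → K, ScalarValued n (∑ j, c j • h j) → c = 0)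
    (hwg : ∃ j, ¬ ScalarValued n (w j * g j)) (y : FreeAlgebra K σ)
    (hy : y ∈ In K J * (In K Jᶜ * In K J) ^ k) (ν : ℕ) (hν : 1 ≤ ν) :
    ¬ ScalarValued n ((∑ j, g j * h j * L.prod * w j + y) ^ ν) := by
  obtain ⟨j, hj⟩ := hwg
  exact Pool.Agent.Y69.DV.few_products J m k hm g h w L hL hlead hg hh hw hli j hj y hy ν
    (by omega)

end Pool.Agent.Results.MP_5d2531_al.FewProducts
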