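import Pool.Agent.Y69.DV.Subst

/-!
# Power-central polynomials with one block of other letters

`K` is an infinite field of any characteristic and `n ≥ 3` is any integer.  Let `x` be a variable
and let `f` be a linear combination of words `x ^ i u x ^ j`, where `x` does not occur in the word
`u` (there is no bound on the length of `u`).  If a power of `f` takes only scalar values on
`M_n(K)` then the values of `f` on `M_n(K)` do not depend on `x`.  For example, the polynomials
`[x ^ i, h]`, `x h x`, `x ^ 2 h + h x ^ 3`, `[x, [x, [x, h]]]`, where `x` does not occur in `h`, are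
not `n`-central.  For `n = 2` the polynomial `[x, y]` is `2`-central.

More generally, let `J` be a set of variables and let `f` be a linear combination of words `w u w'`,
where `w`, `w'` contain only letters of `J` and `u` contains only letters outside `J`.  If a power
of `f` takes only scalar values on `M_n(K)` then, as long as the values of the variables in `J` are
polynomials in one matrix, the value of `f` does not depend on them.
-/

set_option autoImplicit false

namespace Pool.Agent.Results.MP_5d2531_al.OneBlockOfOtherVariables

/-- `f` takes only scalar values on `M_n(K)`. -/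
def ScalarValued {K : Type*} [Field K] {σ : Type*} (n : ℕ) (f : FreeAlgebra K σ) : Prop :=
  ∀ X : σ → Matrix (Fin n) (Fin n) K, ∃ c : K, FreeAlgebra.lift K X f = Matrix.scalar (Fin n) c

/-- The subspace of the polynomials in the variables `x_i`, `i ∈ J`. -/
def In (K : Type*) [Field K] {σ : Type*} (J : Set σ) : Submodule K (FreeAlgebra K σ) :=
  Subalgebra.toSubmodule (Algebra.adjoin K (FreeAlgebra.ι K '' J))

/-- Let `K` be an infinite field, `n ≥ 3`, `J` a set of variables, `A` the polynomials in the
variables of `J`, `B` the polynomials in the other variables and `f ∈ A B A`.  Suppose that `f ^ ν`,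
`ν ≥ 1`, takes only scalar values on `M_n(K)` (for example that `f` is `ν`-central).

1. If the matrices `X_j`, `j ∈ J`, are polynomials in one matrix `M`, the matrices `X'_j`, `j ∈ J`,
   are polynomials in one matrix `M'` and `X_i = X'_i` for `i ∉ J` then `f(X) = f(X')`.
2. If `J = {x}` then the value of `f` does not depend on the value of `x`, without any condition.
   So `f` is equal to the polynomial `f|_{x = 0} ∈ B` on `M_n(K)`. -/
theorem result (K : Type*) [Field K] [Infinite K] (σ : Type*) (n : ℕ) (hn : 3 ≤ n)
    (J : Set σ) (f : FreeAlgebra K σ) (hf : f ∈ In K J * In K Jᶜ * In K J)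
    (ν : ℕ) (hν : 1 ≤ ν) (hc : ScalarValued n (f ^ ν)) :
    (∀ (X X' : σ → Matrix (Fin n) (Fin n) K) (M M' : Matrix (Fin n) (Fin n) K),
      (∀ j ∈ J, X j ∈ Algebra.adjoin K {M}) → (∀ j ∈ J, X' j ∈ Algebra.adjoin K {M'}) →
      (∀ i, i ∉ J → X i = X' i) → FreeAlgebra.lift K X f = FreeAlgebra.lift K X' f) ∧
    (∀ x : σ, J = {x} → ∀ X X' : σ → Matrix (Fin n) (Fin n) K,
      (∀ i, i ≠ x → X i = X' i) → FreeAlgebra.lift K X f = FreeAlgebra.lift K X' f) := by
  refine ⟨fun X X' M M' hM hM' hX => Pool.Agent.Y69.DV.one_block_gen hn J f hf ν (by omega) hc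
    X X' M M' hM hM' hX, ?_⟩
  rintro x rfl X X' hX
  exact Pool.Agent.Y69.DV.one_block hn x f hf ν (by omega) hc X X' hX

end Pool.Agent.Results.MP_5d2531_al.OneBlockOfOtherVariables
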