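import Pool.Agent.Y69.DV.Thms

/-!
# Sums of polynomials in disjoint variables are not power-central

`K` is an infinite field of any characteristic and `n ≥ 3` is any integer.  For `n = 2` the square
of `[x, y] + [z, w]` takes only scalar values, since the `2 × 2` matrices of trace `0` have scalar
squares.
-/

set_option autoImplicit false

namespace Pool.Agent.Results.MP_5d2531_al.SumInDisjointVariables

/-- `f` takes only scalar values on `M_n(K)`. -/
def ScalarValued {K : Type*} [Field K] {σ : Type*} (n : ℕ) (f : FreeAlgebra K σ) : Prop :=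
  ∀ X : σ → Matrix (Fin n) (Fin n) K, ∃ c : K, FreeAlgebra.lift K X f = Matrix.scalar (Fin n) c

/-- The subspace of the polynomials in the variables `x_i`, `i ∈ J`. -/
def In (K : Type*) [Field K] {σ : Type*} (J : Set σ) : Submodule K (FreeAlgebra K σ) :=
  Subalgebra.toSubmodule (Algebra.adjoin K (FreeAlgebra.ι K '' J))

/-- Let `K` be an infinite field, `n ≥ 3`, `r` a polynomial in the variables of a set `J` and `t` a
polynomial in the other variables.  If `r` and `t` are not scalar valued on `M_n(K)` then no power
`(r + t) ^ ν`, `ν ≥ 1`, is scalar valued on `M_n(K)`; hence `r + t` is not `n`-central. -/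
theorem result (K : Type*) [Field K] [Infinite K] (σ : Type*) (n : ℕ) (hn : 3 ≤ n)
    (J : Set σ) (r t : FreeAlgebra K σ) (hr : r ∈ In K J) (ht : t ∈ In K Jᶜ)
    (hr' : ¬ ScalarValued n r) (ht' : ¬ ScalarValued n t) (ν : ℕ) (hν : 1 ≤ ν) :
    ¬ ScalarValued n ((r + t) ^ ν) :=
  Pool.Agent.Y69.DV.separated hn J r t hr ht hr' ht' ν (by omega)

end Pool.Agent.Results.MP_5d2531_al.SumInDisjointVariables
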